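import Mathlib

/-!
# The conditions on the class of a Selmer cocycle, and their behaviour under isomorphisms
-/

set_option autoImplicit false

namespace Pool.Agent.L0h23.AW

/-- the conditions on the squarefree element `δ` -/
structure AC {R : Type} [CommRing R] (m ϖ δ : R) : Prop where
  sf : Squarefree δ
  sup : ∀ π : R, Prime π → π ∣ δ → π ∣ 2 ∨ π ∣ m
  odd : ∀ π : R, Prime π → ¬ π ∣ 2 → π ∣ m → (¬ π ∣ δ ∧ ∃ y, π ∣ δ - y ^ 2) ∨
    ∃ δ1 m1, δ = π * δ1 ∧ m = π * m1 ∧ ∃ y, π ∣ δ1 * m1 - y ^ 2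
  two : (¬ ϖ ∣ δ ∧ ϖ ^ 3 ∣ δ - 1) ∨ (¬ ϖ ∣ δ ∧ ϖ ^ 3 ∣ δ * m - 1) ∨
    ∃ δ1 m1, δ = ϖ * δ1 ∧ m = ϖ * m1 ∧ ϖ ^ 3 ∣ δ1 * m1 - 1

variable {R R' : Type} [CommRing R] [CommRing R']

lemma prime_iso (φ : R ≃+* R') {π : R} : Prime (φ π) ↔ Prime π :=
  MulEquiv.prime_iff φ.toMulEquiv

lemma dvd_iso (φ : R ≃+* R') {x y : R} : φ x ∣ φ y ↔ x ∣ y := map_dvd_iff φ

/-- transport along an isomorphism -/
theorem AC.map (φ : R ≃+* R') {m ϖ δ : R} (h : AC m ϖ δ) : AC (φ m) (φ ϖ) (φ δ) := by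
  have hs : ∀ y : R', ∃ x : R, φ x = y := φ.surjective
  refine ⟨?_, ?_, ?_, ?_⟩
  · intro x hx
    obtain ⟨x, rfl⟩ := hs x
    rw [← map_mul, dvd_iso] at hx
    exact (h.sf x hx).map φ
  · intro π hπ hd
    obtain ⟨π, rfl⟩ := hs π
    rw [prime_iso] at hπ
    rw [dvd_iso] at hd
    have h2 : φ (2 : R) = 2 := map_ofNat φ 2
    rw [← h2, dvd_iso, dvd_iso]
    exact h.sup π hπ hd
  · intro π hπ h2 hm
    obtain ⟨π, rfl⟩ := hs π
    rw [prime_iso] at hπ
    have e2 : φ (2 : R) = 2 := map_ofNat φ 2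
    rw [← e2, dvd_iso] at h2
    rw [dvd_iso] at hm
    rcases h.odd π hπ h2 hm with ⟨h3, y, hy⟩ | ⟨δ1, m1, h3, h4, y, hy⟩
    · left
      refine ⟨by rwa [dvd_iso], φ y, ?_⟩
      rw [← map_pow, ← map_sub, dvd_iso]
      exact hy
    · right
      refine ⟨φ δ1, φ m1, by rw [h3, map_mul], by rw [h4, map_mul], φ y, ?_⟩
      rw [← map_pow, ← map_mul, ← map_sub, dvd_iso]
      exact hy
  · rcases h.two with ⟨h3, h4⟩ | ⟨h3, h4⟩ | ⟨δ1, m1, h3, h4, h5⟩
    · left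
      refine ⟨by rwa [dvd_iso], ?_⟩
      rw [← map_pow, ← map_one φ, ← map_sub, dvd_iso]
      exact h4
    · right; left
      refine ⟨by rwa [dvd_iso], ?_⟩
      rw [← map_pow, ← map_mul, ← map_one φ, ← map_sub, dvd_iso]
      exact h4
    · right; right
      refine ⟨φ δ1, φ m1, by rw [h3, map_mul], by rw [h4, map_mul], ?_⟩
      rw [← map_pow, ← map_mul, ← map_one φ, ← map_sub, dvd_iso]
      exact h5

/-- peeling off a prime element -/
lemma peel [IsDomain R] {π δ : R} (hπ : Prime π) (hδ : Squarefree δ) : ∃ (b : Bool) (δ' : R),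
    δ = (if b then π else 1) * δ' ∧ ¬ π ∣ δ' ∧ Squarefree δ' := by
  by_cases h : π ∣ δ
  · obtain ⟨t, ht⟩ := h
    refine ⟨true, t, by simpa using ht, ?_, ?_⟩
    · rintro ⟨v, rfl⟩
      exact hπ.not_isUnit (hδ π ⟨v, by rw [ht]; ring⟩)
    · exact hδ.squarefree_of_dvd ⟨π, by rw [ht]; ring⟩
  · exact ⟨false, δ, by simp, h, hδ⟩

/-- peeling off a family of prime elements -/
lemma peels [IsDomain R] {ι : Type} [DecidableEq ι] (π : ι → R) (I : Finset ι)
    (hπ : ∀ i ∈ I, Prime (π i)) : ∀ δ : R, Squarefree δ →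
    ∃ (T : Finset ι) (δ' : R), T ⊆ I ∧ δ = (∏ i ∈ T, π i) * δ' ∧ (∀ i ∈ I, ¬ π i ∣ δ') ∧
      Squarefree δ' := by
  induction I using Finset.induction_on with
  | empty => exact fun δ hδ => ⟨∅, δ, Finset.Subset.refl _, by simp, by simp, hδ⟩
  | insert a I ha ih =>
    intro δ hδ
    obtain ⟨T, δ', h1, h2, h3, h4⟩ := ih (fun i hi => hπ i (Finset.mem_insert_of_mem hi)) δ hδ
    obtain ⟨b, δ'', h5, h6, h7⟩ := peel (hπ a (Finset.mem_insert_self _ _)) h4
    have hd : δ'' ∣ δ' := ⟨_, by rw [h5]; ring⟩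
    cases b
    · refine ⟨T, δ'', h1.trans (Finset.subset_insert _ _), ?_, ?_, h7⟩
      · rw [h2, h5]
        simp
      · intro i hi
        rcases Finset.mem_insert.1 hi with rfl | hi
        · exact h6
        · exact fun h => h3 i hi (h.trans hd)
    · refine ⟨insert a T, δ'', Finset.insert_subset_insert _ h1, ?_, ?_, h7⟩
      · rw [h2, h5, Finset.prod_insert (fun h => ha (h1 h))]
        simp
        ring
      · intro i hi
        rcases Finset.mem_insert.1 hi with rfl | hi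
        · exact h6
        · exact fun h => h3 i hi (h.trans hd)

end Pool.Agent.L0h23.AW
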