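import Pool.Agent.L0h23.AW.Ac
import Pool.Agent.L0h23.ED.Slb

/-!
# The elements that satisfy the conditions: the classes
-/

set_option autoImplicit false
set_option linter.unusedSectionVars false

namespace Pool.Agent.L0h23.AW

open Pool.Agent.Y698 Pool.Agent.Y698.SG Pool.Agent.L0h4.TW
open Pool.Agent.L0h23.ED (prime_aR prime_bR prime_cR cc abR pr_i prod_sgn')
open Pool.Agent.W192.HK (sp)

lemma prime_f : Prime (-fR) := D1_seven.px.pr

lemma unit_cases {u : RR} (h : IsUnit u) : u = 1 ∨ u = -1 := isUnit_iff.1 h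

variable {Q P : Finset ℕ} {ϖ : ℕ → RR}

/-- the prime divisors of `2 m` -/
lemma pdiv (h : Dt Q P ϖ) {N : ℕ} (hN : N = ∏ q ∈ Q ∪ P, q ∨ N = 2 * ∏ q ∈ Q ∪ P, q) {ρ : RR}
    (hρ : Prime ρ) (hd : ρ ∣ 2 ∨ ρ ∣ -(fR * (N : RR))) :
    aR ∣ ρ ∨ (aR - 1) ∣ ρ ∨ (-fR) ∣ ρ ∨ ∃ i ∈ ix Q P, pfx Q ϖ i ∣ ρ := by
  have asc : ∀ {x : RR}, Prime x → ρ ∣ x → x ∣ ρ := fun {x} hx h1 =>
    (hρ.associated_of_dvd hx h1).symm.dvd
  have two : ρ ∣ 2 → aR ∣ ρ ∨ (aR - 1) ∣ ρ := by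
    intro h1
    rw [← abR] at h1
    rcases hρ.dvd_or_dvd h1 with h2 | h2
    · exact Or.inl (asc prime_aR h2)
    · right
      refine asc prime_cR ?_
      have e : aR - 1 = -(1 - aR) := by ring
      rw [e, dvd_neg]
      exact h2
  have hM : ρ ∣ ((∏ q ∈ Q ∪ P, q : ℕ) : RR) → ∃ i ∈ ix Q P, pfx Q ϖ i ∣ ρ := by
    intro h1
    have h2 : ρ ∣ ∏ i ∈ ix Q P, pfx Q ϖ i := by
      rcases prod_sgn' h with ⟨-, h3⟩ | ⟨-, h3⟩
      · rwa [h3] at h1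
      · rwa [h3, neg_one_mul, dvd_neg] at h1
    obtain ⟨i, hi, h3⟩ := (hρ.dvd_finsetProd_iff _).1 h2
    exact ⟨i, hi, asc (pr_i h hi) h3⟩
  rcases hd with h1 | h1
  · rcases two h1 with h2 | h2
    · exact Or.inl h2
    · exact Or.inr (Or.inl h2)
  · rw [dvd_neg] at h1
    rcases hρ.dvd_or_dvd h1 with h2 | h2
    · exact Or.inr (Or.inr (Or.inl (asc prime_f ((dvd_neg).2 h2))))
    · rcases hN with h3 | h3
      · rw [h3] at h2
        exact Or.inr (Or.inr (Or.inr (hM h2)))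
      · rw [h3, Nat.cast_mul] at h2
        rcases hρ.dvd_or_dvd h2 with h4 | h4
        · rcases two (by exact_mod_cast h4) with h5 | h5
          · exact Or.inl h5
          · exact Or.inr (Or.inl h5)
        · exact Or.inr (Or.inr (Or.inr (hM h4)))

/-- **the classes** -/
theorem cls_ac (h : Dt Q P ϖ) {N : ℕ} (hN : N = ∏ q ∈ Q ∪ P, q ∨ N = 2 * ∏ q ∈ Q ∪ P, q) {δ : RR}
    (hac : AC (-(fR * (N : RR))) aR δ) :
    ∃ (s e y z : Bool) (T : Finset (ℕ × Bool)), T ⊆ ix Q P ∧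
      δ = cc s e y z * ∏ i ∈ T, pfx Q ϖ i := by
  obtain ⟨y, d1, h1, h1n, h1s⟩ := peel prime_aR hac.sf
  obtain ⟨z, d2, h2, h2n, h2s⟩ := peel prime_cR h1s
  obtain ⟨e, d3, h3, h3n, h3s⟩ := peel prime_f h2s
  obtain ⟨T, d4, hT, h4, h4n, h4s⟩ := peels (pfx Q ϖ) (ix Q P) (fun i hi => pr_i h hi) d3 h3s
  have e43 : d4 ∣ d3 := ⟨_, by rw [h4]; ring⟩
  have e32 : d3 ∣ d2 := ⟨_, by rw [h3]; ring⟩
  have e21 : d2 ∣ d1 := ⟨_, by rw [h2]; ring⟩
  have e10 : d1 ∣ δ := ⟨_, by rw [h1]; ring⟩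
  have hu : IsUnit d4 := by
    by_contra hnu
    obtain ⟨ρ, hρ, hρd⟩ := WfDvdMonoid.exists_irreducible_factor hnu h4s.ne_zero
    have hρ' : Prime ρ := hρ.prime
    rcases pdiv h hN hρ' (hac.sup ρ hρ' (hρd.trans (e43.trans (e32.trans (e21.trans e10)))))
      with g | g | g | ⟨i, hi, g⟩
    · exact h1n (g.trans (hρd.trans (e43.trans (e32.trans e21))))
    · exact h2n (g.trans (hρd.trans (e43.trans e32)))
    · exact h3n (g.trans (hρd.trans e43))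
    · exact h4n i hi (g.trans hρd)
  rcases unit_cases hu with h5 | h5
  · refine ⟨false, e, y, z, T, hT, ?_⟩
    rw [h1, h2, h3, h4, h5]
    unfold Pool.Agent.L0h23.ED.cc
    simp only [Bool.false_eq_true, if_false]
    ring
  · refine ⟨true, e, y, z, T, hT, ?_⟩
    rw [h1, h2, h3, h4, h5]
    unfold Pool.Agent.L0h23.ED.cc
    simp only [if_true]
    ring

end Pool.Agent.L0h23.AW
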