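import Pool.Agent.L0h23.AW.Ac
import Pool.Agent.L0h23.ED.Sla
import Pool.Agent.R384.X.S7

/-!
# The two models of the ring of integers of `ℚ(√-7)`
-/

set_option autoImplicit false

namespace Pool.Agent.L0h23.AW

open Pool.Agent.Y698 Pool.Agent.Y698.SG Pool.Agent.L0h4.TW
open Pool.Agent.R384 (OO em om em_apply)

/-- the isomorphism -/
noncomputable def io : OO ≃+* RR :=
  RingEquiv.ofBijective (em (w := aR) aR_sq) ⟨fun x y h => by
    rw [em_apply, em_apply] at h
    have h1 := cXY_add ((x.re : ℤ) : RR) (((x.im : ℤ) : RR) * aR)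
    have h2 := cXY_add ((y.re : ℤ) : RR) (((y.im : ℤ) : RR) * aR)
    have h3 := cXY_mul ((x.im : ℤ) : RR) aR
    have h4 := cXY_mul ((y.im : ℤ) : RR) aR
    rw [(cXY_int _).1, (cXY_int _).2, cXY_aR.1, cXY_aR.2] at h3 h4
    rw [(cXY_int _).1, (cXY_int _).2, h3.1, h3.2] at h1
    rw [(cXY_int _).1, (cXY_int _).2, h4.1, h4.2] at h2
    rw [h] at h1
    ext
    · linarith [h1.1, h2.1, h1.2, h2.2]
    · linarith [h1.1, h2.1, h1.2, h2.2], fun x => ⟨⟨cX x, cY x⟩, by
    rw [em_apply]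
    exact (Pool.Agent.L0h23.ED.coR x).symm⟩⟩

lemma io_apply (x : OO) : io x = ((x.re : ℤ) : RR) + ((x.im : ℤ) : RR) * aR := by
  show em aR_sq x = _
  rw [em_apply]

lemma io_om : io om = aR := by
  rw [io_apply]
  simp [om]

lemma io_s7 : io Pool.Agent.R384.s7 = fR := by
  rw [io_apply]
  simp only [Pool.Agent.R384.s7, fR]
  push_cast
  ring

end Pool.Agent.L0h23.AW
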