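import Pool.Agent.L0h23.ED.Stm

/-!
# The linear algebra over the field with two elements
-/

set_option autoImplicit false
set_option linter.unusedSectionVars false

namespace Pool.Agent.L0h23.AW

open Finset Pool.Agent.L0h23.ED

variable {ι : Type} [DecidableEq ι] {I : Finset ι}

lemma two0 : (2 : ZMod 2) = 0 := by decide

lemma zsq (a : ZMod 2) : a * a = a := by revert a; decide

/-- the sum over the pairs -/
lemma dsum {n : ι → ZMod 2} {m : ι → ι → ZMod 2} (hn : ∑ i ∈ I, n i = 0)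
    (hrec : ∀ i ∈ I, ∀ j ∈ I, i ≠ j → m i j + m j i = n i * n j) (x : ι → ZMod 2) :
    ∑ j ∈ I, ∑ i ∈ I.erase j, m i j * x i + ∑ j ∈ I, x j * ∑ i ∈ I.erase j, m i j =
      ∑ j ∈ I, n j * x j := by
  have h1 : ∑ j ∈ I, ∑ i ∈ I.erase j, m i j * x i = ∑ j ∈ I, ∑ i ∈ I.erase j, m j i * x j := by
    refine Finset.sum_comm' fun a b => ?_
    rw [mem_erase, mem_erase]
    constructor
    · rintro ⟨h1, h2, h3⟩
      exact ⟨⟨Ne.symm h2, h1⟩, h3⟩
    · rintro ⟨⟨h1, h2⟩, h3⟩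
      exact ⟨h2, Ne.symm h1, h3⟩
  rw [h1, ← Finset.sum_add_distrib]
  refine Finset.sum_congr rfl fun j hj => ?_
  rw [Finset.mul_sum, ← Finset.sum_add_distrib]
  have h2 : ∀ i ∈ I.erase j, m j i * x j + x j * m i j = x j * n j * n i := by
    intro i hi
    have h3 := hrec j hj i (mem_of_mem_erase hi) (ne_of_mem_erase hi).symm
    linear_combination x j * h3
  rw [Finset.sum_congr rfl h2, ← Finset.mul_sum]
  have h4 := Finset.add_sum_erase I n hj
  rw [hn] at h4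
  have h5 := zsq (n j)
  linear_combination (x j * n j) * h4 - x j * h5 + (-(x j * n j)) * two0

/-- the row and the column sums -/
lemma rowcol {n : ι → ZMod 2} {m : ι → ι → ZMod 2} (hn : ∑ i ∈ I, n i = 0)
    (hrec : ∀ i ∈ I, ∀ j ∈ I, i ≠ j → m i j + m j i = n i * n j) {j : ι} (hj : j ∈ I) :
    ∑ i ∈ I.erase j, m j i = ∑ i ∈ I.erase j, m i j + n j := by
  have h1 : ∑ i ∈ I.erase j, (m j i + m i j) = ∑ i ∈ I.erase j, n j * n i :=
    Finset.sum_congr rfl fun i hi =>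
      hrec j hj i (mem_of_mem_erase hi) (ne_of_mem_erase hi).symm
  rw [Finset.sum_add_distrib, ← Finset.mul_sum] at h1
  have h4 := Finset.add_sum_erase I n hj
  rw [hn] at h4
  have h5 := zsq (n j)
  linear_combination h1 + n j * h4 - h5 - (∑ i ∈ I.erase j, m i j + n j) * two0

section
variable {n l lb m7 p : ι → ZMod 2} {m : ι → ι → ZMod 2} (hn : ∑ i ∈ I, n i = 0)
  (hp : ∀ i ∈ I, p i = m7 i + n i)
  (hrec : ∀ i ∈ I, ∀ j ∈ I, i ≠ j → m i j + m j i = n i * n j)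

include hn hp hrec

/-- **the class `3` modulo `4`** -/
theorem lin3 {L : ZMod 2} (hL : 1 + ∑ i ∈ I, lb i = L) (hS : Sys3 I L n l lb m7 m)
    {s z e : ZMod 2} {x : ι → ZMod 2} (h1 : z + e + ∑ i ∈ I, l i * x i = L * s)
    (h3 : ∀ j ∈ I, s * n j + z * lb j + e * m7 j + ∑ i ∈ I.erase j, m i j * x i +
      x j * (n j + m7 j + ∑ i ∈ I.erase j, m i j) = 0)
    (h7 : s + z + ∑ i ∈ I, p i * x i + e * (1 + ∑ i ∈ I, p i) = 0) :
    (s = 0 ∧ z = 0 ∧ e = 0 ∧ ∀ i ∈ I, x i = 0) ∨ (s = 1 ∧ z = 0 ∧ e = 1 ∧ ∀ i ∈ I, x i = 1) := by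
  refine hS s z e x h1 ?_ h3
  have h4 := Finset.sum_congr rfl h3
  have h5 : ∀ j ∈ I, s * n j + z * lb j + e * m7 j + ∑ i ∈ I.erase j, m i j * x i +
      x j * (n j + m7 j + ∑ i ∈ I.erase j, m i j) = (s * n j + z * lb j + e * m7 j) +
      (n j * x j + m7 j * x j) + (∑ i ∈ I.erase j, m i j * x i +
      x j * ∑ i ∈ I.erase j, m i j) := fun j _ => by ring
  rw [Finset.sum_congr rfl h5] at h4
  simp only [Finset.sum_add_distrib, ← Finset.mul_sum, Finset.sum_const_zero] at h4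
  have hd := dsum hn hrec x
  have hp1 : ∑ i ∈ I, p i = ∑ i ∈ I, m7 i + ∑ i ∈ I, n i := by
    rw [Finset.sum_congr rfl hp, Finset.sum_add_distrib]
  have hp2 : ∑ i ∈ I, p i * x i = ∑ i ∈ I, m7 i * x i + ∑ i ∈ I, n i * x i := by
    rw [Finset.sum_congr rfl fun i hi => by rw [hp i hi, add_mul], Finset.sum_add_distrib]
  rw [hp1, hp2, hn] at h7
  rw [hn, hd] at h4
  rw [← hL]
  linear_combination h7 + h4 - (∑ i ∈ I, m7 i * x i + ∑ i ∈ I, n i * x i + e * ∑ i ∈ I, m7 i) * two0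

/-- **the even numbers** -/
theorem linE {nb w : ZMod 2} (hw : ∑ i ∈ I, lb i = w) (hS : SysE I nb w n l lb m7 m)
    {z e : ZMod 2} {x : ι → ZMod 2} (h1 : z + e + ∑ i ∈ I, l i * x i = 0)
    (h3 : ∀ j ∈ I, z * lb j + e * m7 j + ∑ i ∈ I.erase j, m i j * x i +
      x j * (l j + lb j + nb * n j + m7 j + ∑ i ∈ I.erase j, m i j) = 0)
    (h7 : z + ∑ i ∈ I, p i * x i + e * (nb + ∑ i ∈ I, p i) = 0) :
    z = 0 ∧ e = 0 ∧ ∀ i ∈ I, x i = 0 := by
  refine hS z e x h1 ?_ h3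
  have h4 := Finset.sum_congr rfl h3
  have h5 : ∀ j ∈ I, z * lb j + e * m7 j + ∑ i ∈ I.erase j, m i j * x i +
      x j * (l j + lb j + nb * n j + m7 j + ∑ i ∈ I.erase j, m i j) = (z * lb j + e * m7 j) +
      (l j * x j + (lb j + nb * n j) * x j + m7 j * x j) + (∑ i ∈ I.erase j, m i j * x i +
      x j * ∑ i ∈ I.erase j, m i j) := fun j _ => by ring
  rw [Finset.sum_congr rfl h5] at h4
  have hd := dsum hn hrec x
  have hp1 : ∑ i ∈ I, p i = ∑ i ∈ I, m7 i + ∑ i ∈ I, n i := by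
    rw [Finset.sum_congr rfl hp, Finset.sum_add_distrib]
  have hp2 : ∑ i ∈ I, p i * x i = ∑ i ∈ I, m7 i * x i + ∑ i ∈ I, n i * x i := by
    rw [Finset.sum_congr rfl fun i hi => by rw [hp i hi, add_mul], Finset.sum_add_distrib]
  rw [Finset.sum_add_distrib, Finset.sum_add_distrib, Finset.sum_add_distrib (f := fun j =>
    ∑ i ∈ I.erase j, m i j * x i), hd, Finset.sum_add_distrib, Finset.sum_add_distrib,
    Finset.sum_add_distrib, ← Finset.mul_sum, ← Finset.mul_sum, Finset.sum_const_zero, hw] at h4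
  rw [hp1, hp2, hn] at h7
  linear_combination h7 + h4 + h1 - (z + ∑ i ∈ I, m7 i * x i + ∑ i ∈ I, n i * x i +
    e * ∑ i ∈ I, m7 i + ∑ i ∈ I, l i * x i) * two0

/-- **the class `1` modulo `8`** -/
theorem lin1 (hw : ∑ i ∈ I, lb i = 0) {z e : ZMod 2} {x : ι → ZMod 2}
    (h3 : ∀ j ∈ I, z * lb j + e * m7 j + ∑ i ∈ I.erase j, m i j * x i +
      x j * (m7 j + ∑ i ∈ I.erase j, m i j) = 0)
    (h7 : z + ∑ i ∈ I, p i * x i + e * ∑ i ∈ I, p i = 0) :
    z = 0 ∧ ∀ j ∈ I, ∑ i ∈ I.erase j, m i j * (x i + e) +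
      (x j + e) * (p j + ∑ i ∈ I.erase j, m j i) = 0 := by
  have hz : z = 0 := by
    have h4 := Finset.sum_congr rfl h3
    have h5 : ∀ j ∈ I, z * lb j + e * m7 j + ∑ i ∈ I.erase j, m i j * x i +
        x j * (m7 j + ∑ i ∈ I.erase j, m i j) = (z * lb j + e * m7 j + m7 j * x j) +
        (∑ i ∈ I.erase j, m i j * x i + x j * ∑ i ∈ I.erase j, m i j) := fun j _ => by ring
    rw [Finset.sum_congr rfl h5] at h4
    have hd := dsum hn hrec x
    have hp1 : ∑ i ∈ I, p i = ∑ i ∈ I, m7 i + ∑ i ∈ I, n i := by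
      rw [Finset.sum_congr rfl hp, Finset.sum_add_distrib]
    have hp2 : ∑ i ∈ I, p i * x i = ∑ i ∈ I, m7 i * x i + ∑ i ∈ I, n i * x i := by
      rw [Finset.sum_congr rfl fun i hi => by rw [hp i hi, add_mul], Finset.sum_add_distrib]
    rw [Finset.sum_add_distrib, Finset.sum_add_distrib (f := fun j =>
      ∑ i ∈ I.erase j, m i j * x i), hd, Finset.sum_add_distrib, Finset.sum_add_distrib,
      ← Finset.mul_sum, ← Finset.mul_sum, Finset.sum_const_zero, hw] at h4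
    rw [hp1, hp2, hn] at h7
    linear_combination h7 + h4 - (∑ i ∈ I, m7 i * x i + ∑ i ∈ I, n i * x i +
      e * ∑ i ∈ I, m7 i) * two0
  refine ⟨hz, fun j hj => ?_⟩
  have h4 := h3 j hj
  rw [rowcol hn hrec hj, hp j hj]
  have h5 : ∑ i ∈ I.erase j, m i j * (x i + e) = ∑ i ∈ I.erase j, m i j * x i +
      (∑ i ∈ I.erase j, m i j) * e := by
    rw [Finset.sum_mul, ← Finset.sum_add_distrib]
    exact Finset.sum_congr rfl fun i _ => by ring
  rw [h5]
  rw [hz] at h4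
  linear_combination h4 + (e * (∑ i ∈ I.erase j, m i j) + (x j + e) * n j) * two0

end

end Pool.Agent.L0h23.AW
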